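import Pool.Agent.SAV.Lower

/-!
# Semi-arc visibility: the two families of configurations
-/

namespace Pool.Agent.SAV

open Finset

section three

variable {n : ℕ} {lg : ℕ → Prop} [DecidablePred lg] {rk : ℕ → ℕ}

/-- front to front -/
theorem sees_FF (hrk : ∀ l < n, rk l < n) {k : ℕ} (i j : ℕ) (hij : i < j) (hj : j < n) (q : ℕ)
    (hqq : q < n) (h1 : lg i ∨ q ≤ rk i) (h2 : lg j ∨ q ≤ rk j) (a₁ b₁ a₂ b₂ : ℕ)
    (hk : (b₁ - a₁) + (b₂ - a₂) ≤ k)
    (ho : ∀ l : ℕ, i < l → l < j → (lg l ∨ q ≤ rk l) →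
      (a₁ ≤ l ∧ l < b₁) ∨ (a₂ ≤ l ∧ l < b₂)) :
    Sees k (fam rad (ang (n := n) lg rk)) ⟨i, by omega⟩ ⟨j, hj⟩ := by
  refine sees_rank hrk q hqq ((i : ℤ) + 1) ((j : ℤ) + 1) (by omega) (by omega) (by omega)
    (Or.inl ⟨rfl, h1⟩) (Or.inl ⟨rfl, h2⟩) a₁ b₁ a₂ b₂ hk ?_
  rintro l hl hli hlj (⟨h3, h4, h5⟩ | ⟨h3, h4, h5⟩)
  · simp only at hli hlj
    exact ho l (by omega) (by omega) h5
  · omega

/-- back to back -/
theorem sees_BB (hrk : ∀ l < n, rk l < n) {k : ℕ} (i j : ℕ) (hij : i < j) (hj : j < n) (q : ℕ)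
    (hqq : q < n) (h1 : lg i ∧ q ≤ rk i) (h2 : lg j ∧ q ≤ rk j) (a₁ b₁ a₂ b₂ : ℕ)
    (hk : (b₁ - a₁) + (b₂ - a₂) ≤ k)
    (ho : ∀ l : ℕ, i < l → l < j → (lg l ∧ q ≤ rk l) →
      (a₁ ≤ l ∧ l < b₁) ∨ (a₂ ≤ l ∧ l < b₂)) :
    Sees k (fam rad (ang (n := n) lg rk)) ⟨i, by omega⟩ ⟨j, hj⟩ := by
  apply Sees.symm
  refine sees_rank hrk q hqq (-((j : ℤ) + 1)) (-((i : ℤ) + 1)) (by omega) (by omega) (by omega)
    (Or.inr ⟨rfl, h2⟩) (Or.inr ⟨rfl, h1⟩) a₁ b₁ a₂ b₂ hk ?_
  rintro l hl hlj hli (⟨h3, h4, h5⟩ | ⟨h3, h4, h5⟩)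
  · omega
  · simp only at hli hlj
    exact ho l (by omega) (by omega) h5

/-- back of `i` to front of `j` -/
theorem sees_BF (hrk : ∀ l < n, rk l < n) {k : ℕ} (i j : ℕ) (hi : i < n) (hj : j < n) (q : ℕ)
    (hqq : q < n) (h1 : lg i ∧ q ≤ rk i) (h2 : lg j ∨ q ≤ rk j) (a₁ b₁ a₂ b₂ : ℕ)
    (hk : (b₁ - a₁) + (b₂ - a₂) ≤ k)
    (ho : ∀ l : ℕ, l ≠ i → l ≠ j → ((l < j ∧ (lg l ∨ q ≤ rk l)) ∨ (l < i ∧ lg l ∧ q ≤ rk l)) →
      (a₁ ≤ l ∧ l < b₁) ∨ (a₂ ≤ l ∧ l < b₂)) :
    Sees k (fam rad (ang (n := n) lg rk)) ⟨i, hi⟩ ⟨j, hj⟩ := by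
  refine sees_rank hrk q hqq (-((i : ℤ) + 1)) ((j : ℤ) + 1) (by omega) (by omega) (by omega)
    (Or.inr ⟨rfl, h1⟩) (Or.inl ⟨rfl, h2⟩) a₁ b₁ a₂ b₂ hk ?_
  rintro l hl hli hlj (⟨h3, h4, h5⟩ | ⟨h3, h4, h5⟩)
  · simp only at hli hlj
    exact ho l hli hlj (Or.inl ⟨by omega, h5⟩)
  · simp only at hli hlj
    exact ho l hli hlj (Or.inr ⟨by omega, h5⟩)

end three

/-! ### The first family: `n ≥ 5K`, `K = k + 1` -/

def lg1 (K n l : ℕ) : Prop := (2 * K ≤ l ∧ l < 4 * K) ∨ n ≤ l + K

instance (K n : ℕ) : DecidablePred (lg1 K n) := fun l => by unfold lg1; infer_instance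

def rk1 (K l : ℕ) : ℕ := if l < 2 * K then 2 * l + 1 else if l < 4 * K then 2 * (l - 2 * K) else l

theorem rk1_lt {K n : ℕ} (hn : 5 * K ≤ n) : ∀ l < n, rk1 K l < n := by
  intro l hl
  unfold rk1
  split_ifs <;> omega

/-- targets of the outer slots -/
def o1 (K n x e : ℕ) : ℕ :=
  if 2 * K ≤ x ∧ x < 4 * K ∧ 4 * K ≤ x + e + 1 then x + e + 1 + (n - 5 * K) else x + e + 1

/-- pairs of the inner slots -/
def i1 (K n x e : ℕ) : ℕ × ℕ :=
  if x < 2 * K then
    (x, if x + 2 * K + 1 + e < 4 * K then x + 2 * K + 1 + e else x + 2 * K + 1 + e + (n - 5 * K))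
  else if x < 4 * K then (x - 2 * K + e, x)
  else if x + K < n then (3 * K + e, x)
  else (2 * K + e, x)

theorem out1_sees {k n : ℕ} (hn : 5 * (k + 1) ≤ n) {x e : ℕ} (hx : x < n) (he : e < k + 1)
    (hxe : x + e + 1 < n) :
    ∃ (_ : x < o1 (k + 1) n x e) (h2 : o1 (k + 1) n x e < n),
      Sees k (fam rad (ang (n := n) (lg1 (k + 1) n) (rk1 (k + 1)))) ⟨x, hx⟩
        ⟨o1 (k + 1) n x e, h2⟩ := by
  unfold o1
  split_ifs with hc
  · refine ⟨by omega, by omega, ?_⟩
    apply sees_BB (rk1_lt hn) x _ (by omega) (by omega) (2 * (x - 2 * (k + 1))) (by omega) ?_ ?_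
      x.succ (4 * (k + 1)) (n - (k + 1)) (x + e + 1 + (n - 5 * (k + 1))) (by omega) ?_
    · unfold lg1 rk1
      refine ⟨by omega, ?_⟩
      split_ifs <;> omega
    · unfold lg1 rk1
      refine ⟨by omega, ?_⟩
      split_ifs <;> omega
    · intro l h1 h2 h3
      unfold lg1 at h3
      omega
  · refine ⟨by omega, by omega, ?_⟩
    apply sees_FF (rk1_lt hn) x _ (by omega) (by omega) 0 (by omega) (Or.inr (Nat.zero_le _))
      (Or.inr (Nat.zero_le _)) x.succ (x + e + 1) 0 0 (by omega) ?_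
    intro l h1 h2 h3
    omega

theorem in1_sees {k n : ℕ} (hn : 5 * (k + 1) ≤ n) {x e : ℕ} (hx : x < n) (he : e < k + 1) :
    ∃ (h1 : (i1 (k + 1) n x e).1 < (i1 (k + 1) n x e).2) (h2 : (i1 (k + 1) n x e).2 < n),
      Sees k (fam rad (ang (n := n) (lg1 (k + 1) n) (rk1 (k + 1))))
        ⟨(i1 (k + 1) n x e).1, h1.trans h2⟩ ⟨(i1 (k + 1) n x e).2, h2⟩ := by
  unfold i1
  by_cases c1 : x < 2 * (k + 1)
  · simp only [if_pos c1]
    by_cases c2 : x + 2 * (k + 1) + 1 + e < 4 * (k + 1)
    · simp only [if_pos c2]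
      refine ⟨by omega, by omega, ?_⟩
      apply Sees.symm
      apply sees_BF (rk1_lt hn) _ x (by omega) hx (2 * x + 1) (by omega) ?_ ?_
        (2 * (k + 1) + x + 1) (x + 2 * (k + 1) + 1 + e) 0 0 (by omega) ?_
      · unfold lg1 rk1
        refine ⟨by omega, ?_⟩
        split_ifs <;> omega
      · right
        unfold rk1
        split_ifs <;> omega
      · intro l h1 h2 h3
        unfold lg1 rk1 at h3
        split_ifs at h3 <;> omega
    · simp only [if_neg c2]
      refine ⟨by omega, by omega, ?_⟩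
      apply Sees.symm
      apply sees_BF (rk1_lt hn) _ x (by omega) hx (2 * x + 1) (by omega) ?_ ?_
        (2 * (k + 1) + x + 1) (4 * (k + 1)) (n - (k + 1))
        (x + 2 * (k + 1) + 1 + e + (n - 5 * (k + 1))) (by omega) ?_
      · unfold lg1 rk1
        refine ⟨by omega, ?_⟩
        split_ifs <;> omega
      · right
        unfold rk1
        split_ifs <;> omega
      · intro l h1 h2 h3
        unfold lg1 rk1 at h3
        split_ifs at h3 <;> omega
  · by_cases c2 : x < 4 * (k + 1)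
    · simp only [if_neg c1, if_pos c2]
      refine ⟨by omega, by omega, ?_⟩
      apply Sees.symm
      apply sees_BF (rk1_lt hn) x _ hx (by omega) (2 * (x - 2 * (k + 1))) (by omega) ?_ ?_
        (x - 2 * (k + 1)) (x - 2 * (k + 1) + e) 0 0 (by omega) ?_
      · unfold lg1 rk1
        refine ⟨by omega, ?_⟩
        split_ifs <;> omega
      · unfold lg1 rk1
        split_ifs <;> omega
      · intro l h1 h2 h3
        unfold lg1 rk1 at h3
        split_ifs at h3 <;> omega
    · by_cases c3 : x + (k + 1) < n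
      · simp only [if_neg c1, if_neg c2, if_pos c3]
        refine ⟨by omega, by omega, ?_⟩
        apply sees_FF (rk1_lt hn) _ x (by omega) hx x (by omega) ?_ ?_
          (3 * (k + 1) + e + 1) (4 * (k + 1)) 0 0 (by omega) ?_
        · left; unfold lg1; omega
        · right
          unfold rk1
          split_ifs <;> omega
        · intro l h1 h2 h3
          unfold lg1 rk1 at h3
          split_ifs at h3 <;> omega
      · simp only [if_neg c1, if_neg c2, if_neg c3]
        refine ⟨by omega, by omega, ?_⟩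
        apply Sees.symm
        apply sees_BF (rk1_lt hn) x _ hx (by omega) x (by omega) ?_ ?_
          (2 * (k + 1)) (2 * (k + 1) + e) 0 0 (by omega) ?_
        · unfold lg1 rk1
          refine ⟨by omega, ?_⟩
          split_ifs <;> omega
        · left; unfold lg1; omega
        · intro l h1 h2 h3
          unfold lg1 rk1 at h3
          split_ifs at h3 <;> omega

theorem lower1 {k n : ℕ} (hn : 5 * (k + 1) ≤ n) :
    ∑ j ∈ Finset.range n, min (k + 1) j + (k + 1) * n ≤
      (visGraph k (fam rad (ang (n := n) (lg1 (k + 1) n) (rk1 (k + 1))))).edgeSet.ncard := by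
  classical
  set K := k + 1 with hK
  let Out : Finset (Σ _ : ℕ, ℕ) :=
    (Finset.range n).sigma fun x => Finset.range (min K (n - 1 - x))
  let In : Finset (ℕ × ℕ) := Finset.range n ×ˢ Finset.range K
  let fo : (Σ _ : ℕ, ℕ) → ℕ × ℕ := fun a => (a.1, o1 K n a.1 a.2)
  let fi : ℕ × ℕ → ℕ × ℕ := fun a => i1 K n a.1 a.2
  have hco : (Out.image fo).card = ∑ j ∈ Finset.range n, min K j := by
    rw [Finset.card_image_of_injOn]
    · rw [Finset.card_sigma]
      simp only [Finset.card_range]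
      rw [← Finset.sum_range_reflect (fun j => min K j) n]
    · rintro ⟨x, e⟩ h ⟨x', e'⟩ h' heq
      simp only [fo, Prod.mk.injEq] at heq
      obtain ⟨h1, h2⟩ := heq
      subst h1
      have : e = e' := by
        unfold o1 at h2
        split_ifs at h2 <;> omega
      rw [this]
  have hci : (In.image fi).card = K * n := by
    rw [Finset.card_image_of_injOn]
    · simp [In, mul_comm]
    · rintro ⟨x, e⟩ h ⟨x', e'⟩ h' heq
      simp only [In, Finset.coe_product, Finset.coe_range, Set.mem_prod, Set.mem_Iio] at h h'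
      simp only [fi, i1] at heq
      split_ifs at heq <;> simp only [Prod.mk.injEq] at heq ⊢ <;> omega
  have hdisj : Disjoint (Out.image fo) (In.image fi) := by
    rw [Finset.disjoint_left]
    intro a ha hb
    rw [Finset.mem_image] at ha hb
    obtain ⟨⟨x, e⟩, h, rfl⟩ := ha
    obtain ⟨⟨x', e'⟩, h', heq⟩ := hb
    simp only [Out, In, Finset.mem_sigma, Finset.mem_product, Finset.mem_range] at h h'
    simp only [fi, fo, i1, o1] at heq
    split_ifs at heq <;> simp only [Prod.mk.injEq] at heq <;> omega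
  have hcard : (Out.image fo ∪ In.image fi).card =
      ∑ j ∈ Finset.range n, min K j + K * n := by
    rw [Finset.card_union_of_disjoint hdisj, hco, hci]
  rw [← hcard]
  apply card_le_edges
  intro a ha
  rw [Finset.mem_union, Finset.mem_image, Finset.mem_image] at ha
  rcases ha with ⟨⟨x, e⟩, h, rfl⟩ | ⟨⟨x, e⟩, h, rfl⟩
  · simp only [Out, Finset.mem_sigma, Finset.mem_range] at h
    have h1 : x < n ∧ e < min K (n - 1 - x) := h
    exact out1_sees (x := x) (e := e) hn h1.1 (by omega) (by omega)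
  · simp only [In, Finset.mem_product, Finset.mem_range] at h
    exact in1_sees hn h.1 h.2

/-! ### The second family: `n ≥ 3K + 1` -/

def lg2 (K n l : ℕ) : Prop := (K ≤ l ∧ l < 2 * K + 1) ∨ n ≤ l + K

instance (K n : ℕ) : DecidablePred (lg2 K n) := fun l => by unfold lg2; infer_instance

def rk2 (K l : ℕ) : ℕ := if l < K then K + 1 + l else if l < 2 * K + 1 then l - K else l

theorem rk2_lt {K n : ℕ} (hn : 3 * K + 1 ≤ n) : ∀ l < n, rk2 K l < n := by
  intro l hl
  unfold rk2
  split_ifs <;> omega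

/-- the place of the `v`-th arc which is not in the middle part -/
def ph (K n v : ℕ) : ℕ := if v < 2 * K + 1 then v else v + (n - (3 * K + 1))

theorem core2_sees {k n : ℕ} (hn : 3 * (k + 1) + 1 ≤ n) {u v : ℕ} (huv : u < v)
    (hv : v < 3 * (k + 1) + 1) :
    ∃ (h1 : ph (k + 1) n u < ph (k + 1) n v) (h2 : ph (k + 1) n v < n),
      Sees k (fam rad (ang (n := n) (lg2 (k + 1) n) (rk2 (k + 1))))
        ⟨ph (k + 1) n u, h1.trans h2⟩ ⟨ph (k + 1) n v, h2⟩ := by
  unfold ph
  by_cases cv : v < 2 * (k + 1) + 1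
  · have cu : u < 2 * (k + 1) + 1 := by omega
    simp only [if_pos cv, if_pos cu]
    refine ⟨by omega, by omega, ?_⟩
    by_cases c1 : v ≤ u + (k + 1)
    · apply sees_FF (rk2_lt hn) u v huv (by omega) 0 (by omega) (Or.inr (Nat.zero_le _))
        (Or.inr (Nat.zero_le _)) (u + 1) v 0 0 (by omega) ?_
      intro l h1 h2 h3
      omega
    · -- `u` short, `v` long
      apply Sees.symm
      apply sees_BF (rk2_lt hn) v u (by omega) (by omega) (v - (k + 1)) (by omega) ?_ ?_
        0 u 0 0 (by omega) ?_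
      · unfold lg2 rk2
        refine ⟨by omega, ?_⟩
        split_ifs <;> omega
      · right
        unfold rk2
        split_ifs <;> omega
      · intro l h1 h2 h3
        unfold lg2 rk2 at h3
        split_ifs at h3 <;> omega
  · by_cases cu : u < 2 * (k + 1) + 1
    · simp only [if_neg cv, if_pos cu]
      refine ⟨by omega, by omega, ?_⟩
      by_cases c1 : u < k + 1
      · apply Sees.symm
        apply sees_BF (rk2_lt hn) _ u (by omega) (by omega) (k + 1 + 1 + u) (by omega) ?_ ?_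
          (n - (k + 1)) (v + (n - (3 * (k + 1) + 1))) 0 0 (by omega) ?_
        · unfold lg2 rk2
          refine ⟨by omega, ?_⟩
          split_ifs <;> omega
        · right
          unfold rk2
          split_ifs <;> omega
        · intro l h1 h2 h3
          unfold lg2 rk2 at h3
          split_ifs at h3 <;> omega
      · by_cases c2 : u < 2 * (k + 1)
        · apply Sees.symm
          apply sees_BF (rk2_lt hn) _ u (by omega) (by omega)
            (v + (n - (3 * (k + 1) + 1))) (by omega) ?_ ?_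
            (k + 1) u 0 0 (by omega) ?_
          · unfold lg2 rk2
            refine ⟨by omega, ?_⟩
            split_ifs <;> omega
          · left; unfold lg2; omega
          · intro l h1 h2 h3
            unfold lg2 rk2 at h3
            split_ifs at h3 <;> omega
        · apply sees_BB (rk2_lt hn) u _ (by omega) (by omega) (k + 1) (by omega) ?_ ?_
            (n - (k + 1)) (v + (n - (3 * (k + 1) + 1))) 0 0 (by omega) ?_
          · unfold lg2 rk2
            refine ⟨by omega, ?_⟩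
            split_ifs <;> omega
          · unfold lg2 rk2
            refine ⟨by omega, ?_⟩
            split_ifs <;> omega
          · intro l h1 h2 h3
            unfold lg2 rk2 at h3
            split_ifs at h3 <;> omega
    · simp only [if_neg cv, if_neg cu]
      refine ⟨by omega, by omega, ?_⟩
      apply sees_FF (rk2_lt hn) _ _ (by omega) (by omega) 0 (by omega) (Or.inr (Nat.zero_le _))
        (Or.inr (Nat.zero_le _)) (u + (n - (3 * (k + 1) + 1)) + 1) (v + (n - (3 * (k + 1) + 1))) 0 0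
        (by omega) ?_
      intro l h1 h2 h3
      omega

theorem out2_sees {k n : ℕ} {x e : ℕ} (hn : 3 * (k + 1) + 1 ≤ n)
    (hx : x + (k + 1) < n) (he : e < k + 1) :
    ∃ (_ : x < x + e + 1) (h2 : x + e + 1 < n),
      Sees k (fam rad (ang (n := n) (lg2 (k + 1) n) (rk2 (k + 1)))) ⟨x, by omega⟩
        ⟨x + e + 1, h2⟩ := by
  refine ⟨by omega, by omega, ?_⟩
  apply sees_FF (rk2_lt hn) x _ (by omega) (by omega) 0 (by omega) (Or.inr (Nat.zero_le _))
    (Or.inr (Nat.zero_le _)) (x + 1) (x + e + 1) 0 0 (by omega) ?_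
  intro l h1 h2 h3
  omega

theorem in2_sees {k n : ℕ} {x e : ℕ} (hn : 3 * (k + 1) + 1 ≤ n)
    (hx0 : 2 * (k + 1) + 1 ≤ x) (hx : x + (k + 1) < n) (he : e < k + 1) :
    ∃ (_ : k + 1 + 1 + e < x) (h2 : x < n),
      Sees k (fam rad (ang (n := n) (lg2 (k + 1) n) (rk2 (k + 1)))) ⟨k + 1 + 1 + e, by omega⟩
        ⟨x, h2⟩ := by
  refine ⟨by omega, by omega, ?_⟩
  apply sees_FF (rk2_lt hn) _ x (by omega) (by omega) x (by omega) ?_ ?_
    (k + 1 + 1 + e + 1) (2 * (k + 1) + 1) 0 0 (by omega) ?_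
  · left; unfold lg2; omega
  · right
    unfold rk2
    split_ifs <;> omega
  · intro l h1 h2 h3
    unfold lg2 rk2 at h3
    split_ifs at h3 <;> omega

theorem lower2 {k n : ℕ} (hn : 3 * (k + 1) + 1 ≤ n) :
    (3 * (k + 1) + 1).choose 2 + 2 * ((n - (3 * (k + 1) + 1)) * (k + 1)) ≤
      (visGraph k (fam rad (ang (n := n) (lg2 (k + 1) n) (rk2 (k + 1))))).edgeSet.ncard := by
  classical
  set K := k + 1 with hK
  let A : Finset (Σ _ : ℕ, ℕ) := (Finset.range (3 * K + 1)).sigma fun v => Finset.range v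
  let B : Finset (ℕ × ℕ) := Finset.range (n - (3 * K + 1)) ×ˢ Finset.range K
  let fa : (Σ _ : ℕ, ℕ) → ℕ × ℕ := fun a => (ph K n a.2, ph K n a.1)
  let fb : ℕ × ℕ → ℕ × ℕ := fun a => (2 * K + 1 + a.1, 2 * K + 1 + a.1 + a.2 + 1)
  let fc : ℕ × ℕ → ℕ × ℕ := fun a => (K + 1 + a.2, 2 * K + 1 + a.1)
  have hca : (A.image fa).card = (3 * K + 1).choose 2 := by
    rw [Finset.card_image_of_injOn]
    · rw [Finset.card_sigma]
      simp only [Finset.card_range]
      rw [Finset.sum_range_id, Nat.choose_two_right]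
    · rintro ⟨x, e⟩ h ⟨x', e'⟩ h' heq
      simp only [fa, Prod.mk.injEq] at heq
      obtain ⟨h1, h2⟩ := heq
      have h3 : x = x' := by
        unfold ph at h2
        split_ifs at h2 <;> omega
      have h4 : e = e' := by
        unfold ph at h1
        split_ifs at h1 <;> omega
      rw [h3, h4]
  have hcb : (B.image fb).card = (n - (3 * K + 1)) * K := by
    rw [Finset.card_image_of_injOn]
    · simp [B]
    · rintro ⟨x, e⟩ h ⟨x', e'⟩ h' heq
      simp only [fb, Prod.mk.injEq] at heq ⊢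
      omega
  have hcc : (B.image fc).card = (n - (3 * K + 1)) * K := by
    rw [Finset.card_image_of_injOn]
    · simp [B]
    · rintro ⟨x, e⟩ h ⟨x', e'⟩ h' heq
      simp only [fc, Prod.mk.injEq] at heq ⊢
      omega
  have hd1 : Disjoint (A.image fa) (B.image fb ∪ B.image fc) := by
    rw [Finset.disjoint_left]
    intro a ha hb
    rw [Finset.mem_union, Finset.mem_image, Finset.mem_image] at hb
    rw [Finset.mem_image] at ha
    obtain ⟨⟨x, e⟩, h, rfl⟩ := ha
    simp only [A, Finset.mem_sigma, Finset.mem_range] at h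
    have hh : x < 3 * K + 1 ∧ e < x := h
    rcases hb with ⟨⟨x', e'⟩, h', heq⟩ | ⟨⟨x', e'⟩, h', heq⟩
    · simp only [B, Finset.mem_product, Finset.mem_range] at h'
      simp only [fb, fa, ph, Prod.mk.injEq] at heq
      split_ifs at heq <;> omega
    · simp only [B, Finset.mem_product, Finset.mem_range] at h'
      simp only [fc, fa, ph, Prod.mk.injEq] at heq
      split_ifs at heq <;> omega
  have hd2 : Disjoint (B.image fb) (B.image fc) := by
    rw [Finset.disjoint_left]
    intro a ha hb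
    rw [Finset.mem_image] at ha hb
    obtain ⟨⟨x, e⟩, h, rfl⟩ := ha
    obtain ⟨⟨x', e'⟩, h', heq⟩ := hb
    simp only [B, Finset.mem_product, Finset.mem_range] at h h'
    simp only [fb, fc, Prod.mk.injEq] at heq
    omega
  have hcard : (A.image fa ∪ (B.image fb ∪ B.image fc)).card =
      (3 * K + 1).choose 2 + 2 * ((n - (3 * K + 1)) * K) := by
    rw [Finset.card_union_of_disjoint hd1, Finset.card_union_of_disjoint hd2, hca, hcb, hcc]
    ring
  rw [← hcard]
  apply card_le_edges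
  intro a ha
  rw [Finset.mem_union, Finset.mem_union, Finset.mem_image, Finset.mem_image,
    Finset.mem_image] at ha
  rcases ha with ⟨⟨x, e⟩, h, rfl⟩ | ⟨⟨x, e⟩, h, rfl⟩ | ⟨⟨x, e⟩, h, rfl⟩
  · simp only [A, Finset.mem_sigma, Finset.mem_range] at h
    have h1 : x < 3 * K + 1 ∧ e < x := h
    exact core2_sees hn h1.2 h1.1
  · simp only [B, Finset.mem_product, Finset.mem_range] at h
    exact out2_sees (x := 2 * K + 1 + x) (e := e) hn (by omega) h.2
  · simp only [B, Finset.mem_product, Finset.mem_range] at h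
    exact in2_sees (x := 2 * K + 1 + x) (e := e) hn (by omega) (by omega) h.2

end Pool.Agent.SAV
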