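import Mathlib

/-!
# Semi-arc visibility: definitions and the upper bound

`pt ρ θ` is the point of the plane with (possibly negative) radius `ρ` in the direction `θ`.
-/

namespace Pool.Agent.SAV

open Complex

/-- The point with signed radius `ρ` in direction `θ`. -/
noncomputable def pt (ρ θ : ℝ) : ℂ := (ρ : ℂ) * Complex.exp ((θ : ℂ) * I)

/-- The closed circular arc of signed radius `ρ` swept by the directions from `a` to `b`. -/
def arc (ρ a b : ℝ) : Set ℂ := {z | ∃ θ : ℝ, a ≤ θ ∧ θ ≤ b ∧ z = pt ρ θ}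

/-- The cone with circular sides `arc s β₁ β₂` and `arc t β₁ β₂`; the other two sides are the
segments from `pt s β₁` to `pt t β₁` and from `pt s β₂` to `pt t β₂`, which meet in the origin
when `s` and `t` have opposite signs. -/
def cone (s t β₁ β₂ : ℝ) : Set ℂ :=
  {z | ∃ ρ θ : ℝ, s ≤ ρ ∧ ρ ≤ t ∧ β₁ ≤ θ ∧ θ ≤ β₂ ∧ z = pt ρ θ}

/-- `Sees k A i j`: some cone of positive area has its two circular sides contained in `A i` and
`A j` and meets at most `k` of the other sets of the family. -/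
def Sees (k : ℕ) {n : ℕ} (A : Fin n → Set ℂ) (i j : Fin n) : Prop :=
  ∃ s t β₁ β₂ : ℝ, s < t ∧ s ≠ 0 ∧ t ≠ 0 ∧ β₁ < β₂ ∧ β₂ < β₁ + 2 * Real.pi ∧
    ((arc s β₁ β₂ ⊆ A i ∧ arc t β₁ β₂ ⊆ A j) ∨ (arc s β₁ β₂ ⊆ A j ∧ arc t β₁ β₂ ⊆ A i)) ∧
    {l : Fin n | l ≠ i ∧ l ≠ j ∧ (cone s t β₁ β₂ ∩ A l).Nonempty}.ncard ≤ k

/-- The family of semi-arcs with radii `r` and end angles `α`. -/
def fam {n : ℕ} (r α : Fin n → ℝ) (i : Fin n) : Set ℂ := arc (r i) 0 (α i)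

/-- `r`, `α` describe pairwise disjoint arcs whose negative endpoints lie on the positive
x-axis. -/
def Valid {n : ℕ} (r α : Fin n → ℝ) : Prop :=
  (∀ i, 0 < r i ∧ 0 ≤ α i ∧ α i < 2 * Real.pi) ∧
    ∀ i j, i ≠ j → Disjoint (fam r α i) (fam r α j)

/-- Semi-arc `k`-visibility graphs on the vertex set `Fin n`. -/
def IsSemiArcGraph (k n : ℕ) (G : SimpleGraph (Fin n)) : Prop :=
  ∃ r α : Fin n → ℝ, Valid r α ∧ ∀ i j, i ≠ j → (G.Adj i j ↔ Sees k (fam r α) i j)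

/-- The numbers of edges of semi-arc `k`-visibility graphs on `n` vertices. -/
def edgeCounts (k n : ℕ) : Set ℕ :=
  {m | ∃ G : SimpleGraph (Fin n), IsSemiArcGraph k n G ∧ G.edgeSet.ncard = m}

/-! ### Points -/

theorem pt_eq_of_pos {ρ r θ φ : ℝ} (hr : 0 < r) (hθ0 : 0 < θ) (hθ : θ < Real.pi) (hφ0 : 0 ≤ φ)
    (hφ : φ < 2 * Real.pi) (h : pt ρ θ = pt r φ) :
    (ρ = r ∧ φ = θ) ∨ (ρ = -r ∧ φ = θ + Real.pi) := by
  have hpi := Real.pi_pos
  have hn : |ρ| = r := by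
    have h1 := congrArg norm h
    simp only [pt, norm_mul, Complex.norm_exp_ofReal_mul_I, mul_one, Complex.norm_real,
      Real.norm_eq_abs] at h1
    rwa [abs_of_pos hr] at h1
  have key : ∀ a b : ℝ, Complex.exp ((a : ℂ) * I) = Complex.exp ((b : ℂ) * I) →
      ∃ m : ℤ, a = b + m * (2 * Real.pi) := by
    intro a b hab
    obtain ⟨m, hm⟩ := Complex.exp_eq_exp_iff_exists_int.1 hab
    refine ⟨m, ?_⟩
    have h2 := congrArg Complex.im hm
    simpa [Complex.add_im, Complex.mul_im] using h2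
  rcases abs_choice ρ with h1 | h1
  · left
    have hρ : ρ = r := by rw [← hn, h1]
    refine ⟨hρ, ?_⟩
    subst hρ
    have h3 : Complex.exp ((θ : ℂ) * I) = Complex.exp ((φ : ℂ) * I) := by
      have h4 : (ρ : ℂ) ≠ 0 := by exact_mod_cast hr.ne'
      exact mul_left_cancel₀ h4 h
    obtain ⟨m, hm⟩ := key _ _ h3
    have hm0 : m = 0 := by
      have h5 : (m : ℝ) < 1 := by
        by_contra hcon
        push Not at hcon
        nlinarith
      have h6 : (-1 : ℝ) < m := by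
        by_contra hcon
        push Not at hcon
        nlinarith
      have h7 : m < 1 := by exact_mod_cast h5
      have h8 : -1 < m := by exact_mod_cast h6
      omega
    subst hm0
    simpa using hm.symm
  · right
    have hρ : ρ = -r := by rw [← hn, h1]; ring
    refine ⟨hρ, ?_⟩
    subst hρ
    have h3 : Complex.exp (((θ + Real.pi : ℝ) : ℂ) * I) = Complex.exp ((φ : ℂ) * I) := by
      have h4 : (r : ℂ) ≠ 0 := by exact_mod_cast hr.ne'
      have h5 : ((-r : ℝ) : ℂ) * Complex.exp ((θ : ℂ) * I) = (r : ℂ) * Complex.exp ((φ : ℂ) * I) := h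
      have h6 : Complex.exp (((θ + Real.pi : ℝ) : ℂ) * I) = - Complex.exp ((θ : ℂ) * I) := by
        push_cast
        rw [add_mul, Complex.exp_add, Complex.exp_pi_mul_I]
        ring
      rw [h6]
      apply mul_left_cancel₀ h4
      rw [← h5]
      push_cast
      ring
    obtain ⟨m, hm⟩ := key _ _ h3
    have hm0 : m = 0 := by
      have h5 : (m : ℝ) < 1 := by
        by_contra hcon
        push Not at hcon
        nlinarith
      have h6 : (-1 : ℝ) < m := by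
        by_contra hcon
        push Not at hcon
        nlinarith
      have h7 : m < 1 := by exact_mod_cast h5
      have h8 : -1 < m := by exact_mod_cast h6
      omega
    subst hm0
    simp at hm
    linarith

theorem pt_neg_add_pi (ρ θ : ℝ) : pt (-ρ) θ = pt ρ (θ + Real.pi) := by
  unfold pt
  push_cast
  rw [add_mul, Complex.exp_add, Complex.exp_pi_mul_I]
  ring

theorem pt_add_int_mul_pi (θ : ℝ) (m : ℤ) :
    ∃ ε : ℝ, (ε = 1 ∨ ε = -1) ∧ ∀ ρ : ℝ, pt ρ (θ + m * Real.pi) = pt (ε * ρ) θ := by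
  rcases Int.even_or_odd' m with ⟨c, hc | hc⟩
  · refine ⟨1, Or.inl rfl, fun ρ => ?_⟩
    unfold pt
    have : ((θ + m * Real.pi : ℝ) : ℂ) * I = (θ : ℂ) * I + c * (2 * Real.pi * I) := by
      rw [hc]; push_cast; ring
    rw [this, Complex.exp_add, Complex.exp_int_mul_two_pi_mul_I]
    simp
  · refine ⟨-1, Or.inr rfl, fun ρ => ?_⟩
    unfold pt
    have : ((θ + m * Real.pi : ℝ) : ℂ) * I = (θ : ℂ) * I + c * (2 * Real.pi * I) + Real.pi * I := by
      rw [hc]; push_cast; ring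
    rw [this, Complex.exp_add, Complex.exp_add, Complex.exp_int_mul_two_pi_mul_I,
      Complex.exp_pi_mul_I]
    push_cast
    ring

theorem mem_fam_iff {n : ℕ} {r α : Fin n → ℝ} (hv : Valid r α) (i : Fin n) {p τ : ℝ}
    (h0 : 0 < τ) (h1 : τ < Real.pi) :
    pt p τ ∈ fam r α i ↔ (p = r i ∧ τ ≤ α i) ∨ (p = - r i ∧ τ + Real.pi ≤ α i) := by
  obtain ⟨hr, ha0, ha⟩ := hv.1 i
  constructor
  · rintro ⟨φ, hφ0, hφ, h⟩
    rcases pt_eq_of_pos hr h0 h1 hφ0 (lt_of_le_of_lt hφ ha) h with ⟨hp, hf⟩ | ⟨hp, hf⟩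
    · exact Or.inl ⟨hp, by linarith⟩
    · exact Or.inr ⟨hp, by linarith⟩
  · rintro (⟨hp, ht⟩ | ⟨hp, ht⟩)
    · exact ⟨τ, h0.le, ht, by rw [hp]⟩
    · refine ⟨τ + Real.pi, by linarith [Real.pi_pos], ht, ?_⟩
      rw [hp, pt_neg_add_pi]

theorem radii_injective {n : ℕ} {r α : Fin n → ℝ} (hv : Valid r α) : Function.Injective r := by
  intro i j h
  by_contra hij
  have hd := hv.2 i j hij
  have h1 : pt (r i) 0 ∈ fam r α i := ⟨0, le_rfl, (hv.1 i).2.1, rfl⟩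
  have h2 : pt (r i) 0 ∈ fam r α j := ⟨0, le_rfl, (hv.1 j).2.1, by rw [h]⟩
  exact Set.disjoint_left.1 hd h1 h2

/-- From a cone to a line through the origin. -/
theorem Sees.line {k n : ℕ} {r α : Fin n → ℝ} {i j : Fin n} (h : Sees k (fam r α) i j) :
    ∃ τ p q : ℝ, 0 < τ ∧ τ < Real.pi ∧ pt p τ ∈ fam r α i ∧ pt q τ ∈ fam r α j ∧
      {l : Fin n | l ≠ i ∧ l ≠ j ∧ ∃ ρ : ℝ, min p q ≤ ρ ∧ ρ ≤ max p q ∧
        pt ρ τ ∈ fam r α l}.ncard ≤ k := by
  obtain ⟨s, t, β₁, β₂, hst, hs, ht, hβ, -, hside, hcard⟩ := h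
  have hpi := Real.pi_pos
  set m : ℤ := ⌊β₁ / Real.pi⌋ with hm
  have hm1 : (m : ℝ) * Real.pi ≤ β₁ := by
    have := Int.floor_le (β₁ / Real.pi)
    rw [← hm] at this
    calc (m : ℝ) * Real.pi ≤ (β₁ / Real.pi) * Real.pi := by gcongr
      _ = β₁ := by field_simp
  have hm2 : β₁ < ((m : ℝ) + 1) * Real.pi := by
    have := Int.lt_floor_add_one (β₁ / Real.pi)
    rw [← hm] at this
    calc β₁ = (β₁ / Real.pi) * Real.pi := by field_simp
      _ < ((m : ℝ) + 1) * Real.pi := by gcongr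
  set u : ℝ := min β₂ (((m : ℝ) + 1) * Real.pi) with hu
  have hu1 : β₁ < u := lt_min hβ hm2
  set θ : ℝ := (β₁ + u) / 2 with hθ
  have hθ1 : β₁ < θ := by rw [hθ]; linarith
  have hθ2 : θ < u := by rw [hθ]; linarith
  have hθ3 : θ < β₂ := lt_of_lt_of_le hθ2 (min_le_left _ _)
  have hθ4 : θ < ((m : ℝ) + 1) * Real.pi := lt_of_lt_of_le hθ2 (min_le_right _ _)
  set τ : ℝ := θ - m * Real.pi with hτ
  obtain ⟨ε, hε, hpt⟩ := pt_add_int_mul_pi τ m
  have hθτ : τ + m * Real.pi = θ := by rw [hτ]; ring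
  rw [hθτ] at hpt
  have hεε : ε * ε = 1 := by rcases hε with h | h <;> rw [h] <;> norm_num
  have hmem : ∀ ρ : ℝ, s ≤ ρ → ρ ≤ t → pt ρ θ ∈ cone s t β₁ β₂ := fun ρ h1 h2 =>
    ⟨ρ, θ, h1, h2, hθ1.le, hθ3.le, rfl⟩
  have hends : ∀ a b : Fin n, arc s β₁ β₂ ⊆ fam r α a → arc t β₁ β₂ ⊆ fam r α b →
      pt (ε * s) τ ∈ fam r α a ∧ pt (ε * t) τ ∈ fam r α b := by
    intro a b ha hb
    refine ⟨?_, ?_⟩
    · rw [← hpt]; exact ha ⟨θ, hθ1.le, hθ3.le, rfl⟩
    · rw [← hpt]; exact hb ⟨θ, hθ1.le, hθ3.le, rfl⟩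
  have hobst : ∀ p q : ℝ, (p = ε * s ∧ q = ε * t) ∨ (p = ε * t ∧ q = ε * s) →
      {l : Fin n | l ≠ i ∧ l ≠ j ∧ ∃ ρ : ℝ, min p q ≤ ρ ∧ ρ ≤ max p q ∧
        pt ρ τ ∈ fam r α l}.ncard ≤ k := by
    intro p q hpq
    refine le_trans (Set.ncard_le_ncard ?_ (Set.toFinite _)) hcard
    rintro l ⟨h1, h2, ρ, h3, h4, h5⟩
    refine ⟨h1, h2, pt ρ τ, ?_, h5⟩
    have hρ : pt ρ τ = pt (ε * ρ) θ := by
      rw [hpt, ← mul_assoc, hεε, one_mul]
    rw [hρ]
    have hmm : min (ε * s) (ε * t) ≤ ρ ∧ ρ ≤ max (ε * s) (ε * t) := by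
      rcases hpq with ⟨hp, hq⟩ | ⟨hp, hq⟩
      · rw [hp, hq] at h3 h4; exact ⟨h3, h4⟩
      · rw [hp, hq] at h3 h4
        rw [min_comm, max_comm]; exact ⟨h3, h4⟩
    rcases hε with he | he
    · rw [he] at hmm ⊢
      simp only [one_mul] at hmm ⊢
      rw [min_eq_left hst.le, max_eq_right hst.le] at hmm
      exact hmem _ hmm.1 hmm.2
    · rw [he] at hmm ⊢
      simp only [neg_mul, one_mul] at hmm ⊢
      rw [min_eq_right (by linarith), max_eq_left (by linarith)] at hmm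
      exact hmem _ (by linarith [hmm.2]) (by linarith [hmm.1])
  have hτ0 : 0 < τ ∧ τ < Real.pi := by
    constructor
    · rw [hτ]; linarith
    · rw [hτ]; nlinarith
  rcases hside with ⟨ha, hb⟩ | ⟨ha, hb⟩
  · obtain ⟨e1, e2⟩ := hends i j ha hb
    exact ⟨τ, ε * s, ε * t, hτ0.1, hτ0.2, e1, e2, hobst _ _ (Or.inl ⟨rfl, rfl⟩)⟩
  · obtain ⟨e1, e2⟩ := hends j i ha hb
    exact ⟨τ, ε * t, ε * s, hτ0.1, hτ0.2, e2, e1, hobst _ _ (Or.inr ⟨rfl, rfl⟩)⟩

end Pool.Agent.SAV
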