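import Pool.Agent.SAV.Defs

/-!
# Semi-arc visibility: constructions
-/

namespace Pool.Agent.SAV

open Finset

theorem Sees.symm {k n : ℕ} {A : Fin n → Set ℂ} {i j : Fin n} (h : Sees k A i j) :
    Sees k A j i := by
  obtain ⟨s, t, β₁, β₂, h1, h2, h3, h4, h5, h6, h7⟩ := h
  refine ⟨s, t, β₁, β₂, h1, h2, h3, h4, h5, h6.symm, ?_⟩
  have : {l : Fin n | l ≠ j ∧ l ≠ i ∧ (cone s t β₁ β₂ ∩ A l).Nonempty} =
      {l : Fin n | l ≠ i ∧ l ≠ j ∧ (cone s t β₁ β₂ ∩ A l).Nonempty} := by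
    ext l
    constructor
    · rintro ⟨a, b, c⟩; exact ⟨b, a, c⟩
    · rintro ⟨a, b, c⟩; exact ⟨b, a, c⟩
  rw [this]
  exact h7

/-- The visibility graph of a family. -/
def visGraph (k : ℕ) {n : ℕ} (A : Fin n → Set ℂ) : SimpleGraph (Fin n) where
  Adj i j := i ≠ j ∧ Sees k A i j
  symm := ⟨fun _ _ h => ⟨h.1.symm, h.2.symm⟩⟩
  loopless := ⟨fun _ h => h.1 rfl⟩

theorem visGraph_isSemiArc (k : ℕ) {n : ℕ} {r α : Fin n → ℝ} (hv : Valid r α) :
    IsSemiArcGraph k n (visGraph k (fam r α)) :=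
  ⟨r, α, hv, fun _ _ hij => ⟨fun h => h.2, fun h => ⟨hij, h⟩⟩⟩

theorem card_le_edges {k n : ℕ} {A : Fin n → Set ℂ} (S : Finset (ℕ × ℕ))
    (hS : ∀ a ∈ S, ∃ (_ : a.1 < a.2) (h2 : a.2 < n), Sees k A ⟨a.1, by omega⟩ ⟨a.2, h2⟩) :
    S.card ≤ (visGraph k A).edgeSet.ncard := by
  classical
  have hn : ∀ a ∈ S, a.1 < a.2 ∧ a.2 < n := fun a ha => by
    obtain ⟨h1, h2, -⟩ := hS a ha; exact ⟨h1, h2⟩
  let F : (a : ℕ × ℕ) → a ∈ S → Sym2 (Fin n) := fun a ha =>
    s(⟨a.1, (hn a ha).1.trans (hn a ha).2⟩, ⟨a.2, (hn a ha).2⟩)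
  have : S.card = (Set.range fun a : S => F a.1 a.2).ncard := by
    rw [← Set.image_univ, Set.ncard_image_of_injective _ ?_, Set.ncard_univ, Nat.card_eq_fintype_card,
      Fintype.card_coe]
    rintro ⟨a, ha⟩ ⟨b, hb⟩ hab
    simp only [F, Sym2.eq_iff, Fin.mk.injEq] at hab
    have h1 := hn a ha
    have h2 := hn b hb
    rw [Subtype.mk.injEq]
    rcases hab with ⟨h3, h4⟩ | ⟨h3, h4⟩
    · exact Prod.ext h3 h4
    · omega
  rw [this]
  apply Set.ncard_le_ncard _ (Set.toFinite _)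
  rintro _ ⟨⟨a, ha⟩, rfl⟩
  obtain ⟨h1, h2, h3⟩ := hS a ha
  rw [SimpleGraph.mem_edgeSet]
  refine ⟨?_, h3⟩
  intro hc
  have hc' : a.1 = a.2 := congrArg Fin.val hc
  omega

/-! ### Configurations given by ranks -/

section ranks

variable {n : ℕ} (lg : ℕ → Prop) [DecidablePred lg] (rk : ℕ → ℕ)

noncomputable def rad (i : Fin n) : ℝ := (i : ℕ) + 1

noncomputable def ang (i : Fin n) : ℝ :=
  Real.pi * ((rk i : ℝ) + 1) / (n + 1) + if lg i then Real.pi else 0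

variable {lg rk}

theorem ang_base (hrk : ∀ l < n, rk l < n) (i : Fin n) :
    0 < Real.pi * ((rk i : ℝ) + 1) / (n + 1) ∧ Real.pi * ((rk i : ℝ) + 1) / (n + 1) < Real.pi := by
  have hpi := Real.pi_pos
  have h1 : ((rk i : ℕ) : ℝ) < n := by exact_mod_cast hrk i i.2
  constructor
  · positivity
  · rw [div_lt_iff₀ (by positivity)]
    nlinarith

theorem valid_rank (hrk : ∀ l < n, rk l < n) : Valid (rad (n := n)) (ang lg rk) := by
  have hpi := Real.pi_pos
  refine ⟨fun i => ⟨by unfold rad; positivity, ?_, ?_⟩, ?_⟩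
  · have := (ang_base hrk i).1
    unfold ang
    split_ifs <;> linarith
  · have := (ang_base hrk i).2
    unfold ang
    split_ifs <;> linarith
  · intro i j hij
    rw [Set.disjoint_left]
    rintro z ⟨θ, -, -, hz⟩ ⟨φ, -, -, hz'⟩
    rw [hz] at hz'
    have h1 := congrArg norm hz'
    simp only [pt, norm_mul, Complex.norm_exp_ofReal_mul_I, mul_one, Complex.norm_real,
      Real.norm_eq_abs, rad] at h1
    rw [abs_of_pos (by positivity), abs_of_pos (by positivity)] at h1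
    apply hij
    apply Fin.ext
    have : ((i : ℕ) : ℝ) = ((j : ℕ) : ℝ) := by linarith
    exact_mod_cast this

theorem card_two_intervals (a₁ b₁ a₂ b₂ : ℕ) (S : Set (Fin n))
    (h : ∀ l ∈ S, (a₁ ≤ l.val ∧ l.val < b₁) ∨ (a₂ ≤ l.val ∧ l.val < b₂)) :
    S.ncard ≤ (b₁ - a₁) + (b₂ - a₂) := by
  classical
  have h1 : (Fin.val '' S).ncard = S.ncard := Set.ncard_image_of_injective _ Fin.val_injective
  rw [← h1]
  have h2 : Fin.val '' S ⊆ ((Finset.Ico a₁ b₁ ∪ Finset.Ico a₂ b₂ : Finset ℕ) : Set ℕ) := by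
    rintro _ ⟨l, hl, rfl⟩
    rw [Finset.mem_coe, Finset.mem_union, Finset.mem_Ico, Finset.mem_Ico]
    exact h l hl
  refine (Set.ncard_le_ncard h2 (Set.toFinite _)).trans ?_
  rw [Set.ncard_coe_finset]
  refine (Finset.card_union_le _ _).trans ?_
  rw [Nat.card_Ico, Nat.card_Ico]

/-- Visibility from ranks: at the time `q` the item of `i` with signed radius `s` and the item of
`j` with signed radius `t` are present, and the other items between them belong to two short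
intervals. -/
theorem sees_rank (hrk : ∀ l < n, rk l < n) {k : ℕ} {i j : Fin n} (q : ℕ) (hqq : q < n) (s t : ℤ)
    (hst : s < t) (hs0 : s ≠ 0) (ht0 : t ≠ 0)
    (hs : (s = (i : ℕ) + 1 ∧ (lg i ∨ q ≤ rk i)) ∨ (s = -((i : ℕ) + 1 : ℤ) ∧ lg i ∧ q ≤ rk i))
    (ht : (t = (j : ℕ) + 1 ∧ (lg j ∨ q ≤ rk j)) ∨ (t = -((j : ℕ) + 1 : ℤ) ∧ lg j ∧ q ≤ rk j))
    (a₁ b₁ a₂ b₂ : ℕ) (hk : (b₁ - a₁) + (b₂ - a₂) ≤ k)
    (ho : ∀ l : ℕ, l < n → l ≠ i → l ≠ j →
      ((s ≤ l + 1 ∧ (l : ℤ) + 1 ≤ t ∧ (lg l ∨ q ≤ rk l)) ∨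
        (s ≤ -((l : ℤ) + 1) ∧ -((l : ℤ) + 1) ≤ t ∧ lg l ∧ q ≤ rk l)) →
      (a₁ ≤ l ∧ l < b₁) ∨ (a₂ ≤ l ∧ l < b₂)) :
    Sees k (fam rad (ang (n := n) lg rk)) i j := by
  have hpi := Real.pi_pos
  have hn1 : (0 : ℝ) < (n : ℝ) + 1 := by positivity
  have hv := valid_rank (lg := lg) hrk
  set β₁ : ℝ := Real.pi * ((q : ℝ) + 1 / 3) / (n + 1) with hβ₁
  set β₂ : ℝ := Real.pi * ((q : ℝ) + 2 / 3) / (n + 1) with hβ₂
  have hqn : ∀ l : Fin n, q ≤ rk l → β₂ ≤ Real.pi * ((rk l : ℝ) + 1) / (n + 1) := by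
    intro l hl
    rw [hβ₂]
    have : (q : ℝ) ≤ rk l := by exact_mod_cast hl
    gcongr
    linarith
  have hqn' : ∀ l : Fin n, ¬ q ≤ rk l → Real.pi * ((rk l : ℝ) + 1) / (n + 1) < β₁ := by
    intro l hl
    rw [hβ₁]
    have h3 : rk l + 1 ≤ q := by omega
    have : ((rk l : ℕ) : ℝ) + 1 ≤ q := by exact_mod_cast h3
    apply div_lt_div_of_pos_right _ hn1
    apply mul_lt_mul_of_pos_left _ hpi
    linarith
  have hβ0 : 0 < β₁ := by rw [hβ₁]; positivity
  have hβ : β₁ < β₂ := by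
    rw [hβ₁, hβ₂]
    gcongr
    norm_num
  · have hβπ : β₂ < Real.pi := by
      rw [hβ₂, div_lt_iff₀ hn1]
      have : (q : ℝ) + 1 ≤ n := by exact_mod_cast hqq
      nlinarith
    have hside : ∀ (l : Fin n) (p : ℤ),
        ((p = (l : ℕ) + 1 ∧ (lg l ∨ q ≤ rk l)) ∨ (p = -((l : ℕ) + 1 : ℤ) ∧ lg l ∧ q ≤ rk l)) →
        arc (p : ℝ) β₁ β₂ ⊆ fam rad (ang (n := n) lg rk) l := by
      intro l p hp z hz
      obtain ⟨θ, h1, h2, rfl⟩ := hz
      rw [mem_fam_iff hv l (by linarith) (by linarith)]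
      have hb := ang_base (rk := rk) hrk l
      rcases hp with ⟨hp, hl⟩ | ⟨hp, hl, hq⟩
      · left
        refine ⟨by rw [hp]; unfold rad; push_cast; ring, ?_⟩
        unfold ang
        by_cases hll : lg l
        · rw [if_pos hll]; linarith
        · rw [if_neg hll]
          have := hqn l (hl.resolve_left hll)
          linarith
      · right
        refine ⟨by rw [hp]; unfold rad; push_cast; ring, ?_⟩
        unfold ang
        rw [if_pos hl]
        have := hqn l hq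
        linarith
    refine ⟨s, t, β₁, β₂, by exact_mod_cast hst, by exact_mod_cast hs0, by exact_mod_cast ht0, hβ,
      by linarith, Or.inl ⟨hside i s hs, hside j t ht⟩, ?_⟩
    refine le_trans (card_two_intervals a₁ b₁ a₂ b₂ _ ?_) hk
    rintro l ⟨h1, h2, z, ⟨ρ, θ, h3, h4, h5, h6, rfl⟩, hz⟩
    rw [mem_fam_iff hv l (by linarith) (by linarith)] at hz
    have hb := ang_base (rk := rk) hrk l
    refine ho l l.2 (fun h => h1 (Fin.ext h)) (fun h => h2 (Fin.ext h)) ?_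
    have halive : θ ≤ Real.pi * ((rk l : ℝ) + 1) / (n + 1) → q ≤ rk l := by
      intro h
      by_contra hcon
      have := hqn' l hcon
      linarith
    rcases hz with ⟨hρ, hz⟩ | ⟨hρ, hz⟩
    · left
      have hρ' : ρ = ((l : ℕ) : ℝ) + 1 := hρ
      refine ⟨?_, ?_, ?_⟩
      · rw [hρ'] at h3; exact_mod_cast h3
      · rw [hρ'] at h4; exact_mod_cast h4
      · by_cases hll : lg l
        · exact Or.inl hll
        · right
          unfold ang at hz
          rw [if_neg hll] at hz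
          exact halive (by linarith)
    · right
      have hρ' : ρ = -(((l : ℕ) : ℝ) + 1) := hρ
      have hll : lg l := by
        by_contra hll
        unfold ang at hz
        rw [if_neg hll] at hz
        linarith
      refine ⟨?_, ?_, hll, ?_⟩
      · rw [hρ'] at h3; exact_mod_cast h3
      · rw [hρ'] at h4; exact_mod_cast h4
      · unfold ang at hz
        rw [if_pos hll] at hz
        exact halive (by linarith)

end ranks

end Pool.Agent.SAV
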