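import Pool.Agent.SAV.Defs

/-!
# Semi-arc visibility: the upper bound
-/

namespace Pool.Agent.SAV

open Finset

/-! ### The `K` nearest items -/

/-- At most `K` indices have an item with fewer than `K` other indices having a nearer item. -/
theorem card_nearest_le {V : Type*} [Fintype V] [DecidableEq V] (P : V → ℝ → Prop)
    (hP : ∀ l l' u, P l u → P l' u → l = l') (K : ℕ) (C : Finset V)
    (hC : ∀ y ∈ C, ∃ u, P y u ∧ {l | l ≠ y ∧ ∃ u' < u, P l u'}.ncard < K) :
    C.card ≤ K := by
  classical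
  by_contra hcon
  push Not at hcon
  have hne : C.Nonempty := Finset.card_pos.1 (by omega)
  choose! u hu using hC
  obtain ⟨y, hy, hmax⟩ := Finset.exists_max_image C u hne
  have hsub : ((C.erase y : Finset V) : Set V) ⊆ {l | l ≠ y ∧ ∃ u' < u y, P l u'} := by
    intro z hz
    have hz' : z ∈ C.erase y := hz
    rw [Finset.mem_erase] at hz'
    refine ⟨hz'.1, u z, ?_, (hu z hz'.2).1⟩
    refine lt_of_le_of_ne (hmax z hz'.2) ?_
    intro he
    apply hz'.1
    have h1 := (hu z hz'.2).1
    rw [he] at h1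
    exact hP _ _ _ h1 (hu y hy).1
  have h1 := Set.ncard_le_ncard hsub (Set.toFinite _)
  rw [Set.ncard_coe_finset, Finset.card_erase_of_mem hy] at h1
  have h2 := (hu y hy).2
  omega

/-! ### The combinatorial lists -/

section lists

variable {n : ℕ} (r α : Fin n → ℝ)

/-- The angle modulo `π` at which an arc ends. -/
noncomputable def bb (i : Fin n) : ℝ := if Real.pi ≤ α i then α i - Real.pi else α i

/-- `x` ends before `y` (as directions modulo `π`, ties broken by the index). -/
def Before (x y : Fin n) : Prop := bb α x < bb α y ∨ (bb α x = bb α y ∧ x < y)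

/-- `y` is longer than `x` (ties broken by the index). -/
def Longer (x y : Fin n) : Prop := α x < α y ∨ (α x = α y ∧ x < y)

/-- `y` has an item on the other side of the origin when `x` ends. -/
def Oth (x y : Fin n) : Prop :=
  if Real.pi ≤ α x then (Real.pi ≤ α y ∨ Before α x y) else (Real.pi ≤ α y ∧ Before α x y)

/-- The items of `y` on the line at the moment when `x` ends, in a coordinate in which the item of
`x` has coordinate `-r x` and the origin is `0`. -/
def Item (x y : Fin n) (u : ℝ) : Prop := (u = - r y ∧ Longer α x y) ∨ (u = r y ∧ Oth α x y)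

def CoutP (K : ℕ) (x y : Fin n) : Prop :=
  r x < r y ∧ Longer α x y ∧ {l | l ≠ x ∧ l ≠ y ∧ Longer α x l ∧ r x < r l ∧ r l < r y}.ncard < K

def CinP (K : ℕ) (x y : Fin n) : Prop :=
  y ≠ x ∧ ∃ u, - r x < u ∧ Item r α x y u ∧
    {l | l ≠ x ∧ l ≠ y ∧ ∃ u', - r x < u' ∧ u' < u ∧ Item r α x l u'}.ncard < K

variable {r α}

theorem item_unique (hr : ∀ i, 0 < r i) (hinj : Function.Injective r) {x y z : Fin n} {u : ℝ}
    (h1 : Item r α x y u) (h2 : Item r α x z u) : y = z := by
  have hy := hr y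
  have hz := hr z
  apply hinj
  rcases h1 with ⟨h1, -⟩ | ⟨h1, -⟩ <;> rcases h2 with ⟨h2, -⟩ | ⟨h2, -⟩ <;> linarith

open Classical in
theorem card_Cin_le (hr : ∀ i, 0 < r i) (hinj : Function.Injective r) (K : ℕ) (x : Fin n) :
    (Finset.univ.filter (fun y => CinP r α K x y)).card ≤ K := by
  apply card_nearest_le (fun l u => l ≠ x ∧ - r x < u ∧ Item r α x l u)
  · rintro l l' u ⟨-, -, h1⟩ ⟨-, -, h2⟩
    exact item_unique hr hinj h1 h2
  · intro y hy
    rw [Finset.mem_filter] at hy
    obtain ⟨-, hyx, u, hu1, hu2, hu3⟩ := hy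
    refine ⟨u, ⟨hyx, hu1, hu2⟩, lt_of_le_of_lt (Set.ncard_le_ncard ?_ (Set.toFinite _)) hu3⟩
    rintro l ⟨h1, u', h2, h3, h4, h5⟩
    exact ⟨h3, h1, u', h4, h2, h5⟩

open Classical in
theorem card_Cout_le (hinj : Function.Injective r) (K : ℕ) (x : Fin n) :
    (Finset.univ.filter (fun y => CoutP r α K x y)).card ≤ K := by
  apply card_nearest_le (fun l u => u = r l ∧ l ≠ x ∧ r x < r l ∧ Longer α x l)
  · rintro l l' u ⟨h1, -⟩ ⟨h2, -⟩
    exact hinj (h1.symm.trans h2)
  · intro y hy
    rw [Finset.mem_filter] at hy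
    obtain ⟨-, h1, h2, h3⟩ := hy
    have hyx : y ≠ x := by rintro rfl; exact lt_irrefl _ h1
    refine ⟨r y, ⟨rfl, hyx, h1, h2⟩, lt_of_le_of_lt (Set.ncard_le_ncard ?_ (Set.toFinite _)) h3⟩
    rintro l ⟨h4, u', h5, h6, h7, h8, h9⟩
    exact ⟨h7, h4, h9, h8, by rw [← h6]; exact h5⟩

/-- number of arcs longer than `x`. -/
noncomputable def nl (α : Fin n → ℝ) (x : Fin n) : ℕ := {y | Longer α x y}.ncard

open Classical in
theorem card_Cout_le' (K : ℕ) (x : Fin n) :
    (Finset.univ.filter (fun y => CoutP r α K x y)).card ≤ nl α x := by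
  rw [← Set.ncard_coe_finset]
  refine Set.ncard_le_ncard ?_ (Set.toFinite _)
  intro y hy
  simp only [Finset.coe_filter, Finset.mem_univ, true_and, Set.mem_setOf_eq] at hy
  exact hy.2.1

theorem longer_irrefl (x : Fin n) : ¬ Longer α x x := by
  rintro (h | ⟨-, h⟩)
  · exact lt_irrefl _ h
  · exact lt_irrefl _ h

theorem longer_trans {x y z : Fin n} (h1 : Longer α x y) (h2 : Longer α y z) : Longer α x z := by
  rcases h1 with h1 | ⟨h1, h1'⟩ <;> rcases h2 with h2 | ⟨h2, h2'⟩
  · exact Or.inl (h1.trans h2)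
  · exact Or.inl (by rw [← h2]; exact h1)
  · exact Or.inl (by rw [h1]; exact h2)
  · exact Or.inr ⟨h1.trans h2, h1'.trans h2'⟩

theorem longer_total {x y : Fin n} (h : x ≠ y) : Longer α x y ∨ Longer α y x := by
  rcases lt_trichotomy (α x) (α y) with h1 | h1 | h1
  · exact Or.inl (Or.inl h1)
  · rcases lt_or_gt_of_ne h with h2 | h2
    · exact Or.inl (Or.inr ⟨h1, h2⟩)
    · exact Or.inr (Or.inr ⟨h1.symm, h2⟩)
  · exact Or.inr (Or.inl h1)

theorem before_total {x y : Fin n} (h : x ≠ y) : Before α x y ∨ Before α y x := by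
  rcases lt_trichotomy (bb α x) (bb α y) with h1 | h1 | h1
  · exact Or.inl (Or.inl h1)
  · rcases lt_or_gt_of_ne h with h2 | h2
    · exact Or.inl (Or.inr ⟨h1, h2⟩)
    · exact Or.inr (Or.inr ⟨h1.symm, h2⟩)
  · exact Or.inr (Or.inl h1)

theorem nl_lt (x : Fin n) : nl α x < n := by
  unfold nl
  have h1 : {y | Longer α x y} ⊆ ((Finset.univ.erase x : Finset (Fin n)) : Set (Fin n)) := by
    intro y hy
    have hy' : Longer α x y := hy
    simp only [Finset.coe_erase, Finset.coe_univ, Set.mem_diff, Set.mem_univ, Set.mem_singleton_iff,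
      true_and]
    rintro rfl
    exact longer_irrefl _ hy'
  have h2 := Set.ncard_le_ncard h1 (Set.toFinite _)
  rw [Set.ncard_coe_finset, Finset.card_erase_of_mem (Finset.mem_univ _), Finset.card_univ,
    Fintype.card_fin] at h2
  have := x.pos
  omega

theorem nl_injective : Function.Injective (nl α) := by
  intro x y h
  by_contra hxy
  have key : ∀ a b : Fin n, Longer α a b → nl α b < nl α a := by
    intro a b hab
    unfold nl
    apply Set.ncard_lt_ncard _ (Set.toFinite _)
    refine ⟨fun z hz => longer_trans hab hz, fun hcon => ?_⟩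
    exact longer_irrefl b (hcon hab)
  rcases longer_total (α := α) hxy with h1 | h1
  · have := key _ _ h1; omega
  · have := key _ _ h1; omega

theorem sum_nl (K : ℕ) : ∑ x : Fin n, min K (nl α x) = ∑ j ∈ Finset.range n, min K j := by
  let f : Fin n → Fin n := fun x => ⟨nl α x, nl_lt x⟩
  have hf : Function.Bijective f := by
    rw [← Finite.injective_iff_bijective]
    intro x y h
    exact nl_injective (congrArg Fin.val h)
  rw [Finset.sum_range]
  exact hf.sum_comp (fun j : Fin n => min K (j : ℕ))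

end lists

/-! ### Every visible pair is in a list -/

section main

variable {n : ℕ} {r α : Fin n → ℝ}

theorem bb_short {i : Fin n} (h : ¬ Real.pi ≤ α i) : bb α i = α i := by simp [bb, h]

theorem bb_long {i : Fin n} (h : Real.pi ≤ α i) : bb α i = α i - Real.pi := by simp [bb, h]

theorem Before.le {x y : Fin n} (h : Before α x y) : bb α x ≤ bb α y := by
  rcases h with h | ⟨h, -⟩
  · exact h.le
  · exact h.le

theorem Longer.le {x y : Fin n} (h : Longer α x y) : α x ≤ α y := by
  rcases h with h | ⟨h, -⟩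
  · exact h.le
  · exact h.le

theorem longer_of_before_long {x y : Fin n} (hx : Real.pi ≤ α x) (hy : Real.pi ≤ α y)
    (h : Before α x y) : Longer α x y := by
  unfold Before at h
  rw [bb_long hx, bb_long hy] at h
  rcases h with h | ⟨h, h'⟩
  · exact Or.inl (by linarith)
  · exact Or.inr ⟨by linarith, h'⟩

theorem longer_of_before_short {x y : Fin n} (hx : ¬ Real.pi ≤ α x)
    (h : Real.pi ≤ α y ∨ Before α x y) : Longer α x y := by
  by_cases hy : Real.pi ≤ α y
  · exact Or.inl (by push Not at hx; linarith)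
  · have h' := h.resolve_left hy
    unfold Before at h'
    rw [bb_short hx, bb_short hy] at h'
    exact h'

/-- If `x` has ended not before `τ`, the items present when `x` ends are present at `τ`. -/
theorem item_alive (hv : Valid r α) {x l : Fin n} {τ u : ℝ} (h0 : 0 < τ) (h1 : τ < Real.pi)
    (hx : τ ≤ bb α x) (hi : Item r α x l u) :
    pt (if Real.pi ≤ α x then u else -u) τ ∈ fam r α l := by
  rw [mem_fam_iff hv l h0 h1]
  by_cases hxl : Real.pi ≤ α x
  · rw [if_pos hxl]
    rw [bb_long hxl] at hx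
    rcases hi with ⟨hu, hl⟩ | ⟨hu, ho⟩
    · right
      exact ⟨hu, by linarith [hl.le]⟩
    · left
      refine ⟨hu, ?_⟩
      simp only [Oth, if_pos hxl] at ho
      by_cases hll : Real.pi ≤ α l
      · linarith
      · have h3 := (ho.resolve_left hll).le
        rw [bb_long hxl, bb_short hll] at h3
        linarith
  · rw [if_neg hxl]
    rw [bb_short hxl] at hx
    rcases hi with ⟨hu, hl⟩ | ⟨hu, ho⟩
    · left
      exact ⟨by rw [hu]; ring, by linarith [hl.le]⟩
    · right
      simp only [Oth, if_neg hxl] at ho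
      have h3 := ho.2.le
      rw [bb_short hxl, bb_long ho.1] at h3
      exact ⟨by rw [hu], by linarith⟩

/-- The obstacle count on a line. -/
def Obs (r α : Fin n → ℝ) (x y : Fin n) (τ p q : ℝ) : Set (Fin n) :=
  {l : Fin n | l ≠ x ∧ l ≠ y ∧ ∃ ρ : ℝ, min p q ≤ ρ ∧ ρ ≤ max p q ∧ pt ρ τ ∈ fam r α l}

theorem Obs_comm (x y : Fin n) (τ p q : ℝ) : Obs r α x y τ p q = Obs r α y x τ q p := by
  ext l
  simp only [Obs, Set.mem_setOf_eq, min_comm p q, max_comm p q]
  constructor
  · rintro ⟨h1, h2, h3⟩; exact ⟨h2, h1, h3⟩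
  · rintro ⟨h1, h2, h3⟩; exact ⟨h2, h1, h3⟩

/-- If the finite item of `x` (at signed radius `σ (- r x)`) and an item of `y` present when `x`
ends see each other at `τ`, then `y` is in one of the lists of `x`. -/
theorem in_list (hv : Valid r α) {x y : Fin n} {τ u : ℝ} {K : ℕ} (hxy : x ≠ y) (h0 : 0 < τ)
    (h1 : τ < Real.pi) (hx : τ ≤ bb α x) (hi : Item r α x y u)
    (hobs : (Obs r α x y τ (if Real.pi ≤ α x then - r x else r x)
      (if Real.pi ≤ α x then u else -u)).ncard < K) :
    CoutP r α K x y ∨ CinP r α K x y := by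
  have hinj := radii_injective hv
  have hrx := (hv.1 x).1
  have hry := (hv.1 y).1
  have hne : u ≠ - r x := by
    rcases hi with ⟨hu, -⟩ | ⟨hu, -⟩
    · intro h
      apply hxy
      apply hinj
      linarith
    · intro h; linarith
  rcases lt_or_gt_of_ne hne with hlt | hgt
  · left
    have hu : u = - r y ∧ Longer α x y := by
      rcases hi with h | ⟨h, -⟩
      · exact h
      · linarith
    refine ⟨by linarith [hu.1], hu.2, lt_of_le_of_lt (Set.ncard_le_ncard ?_ (Set.toFinite _)) hobs⟩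
    rintro l ⟨h2, h3, h4, h5, h6⟩
    refine ⟨h2, h3, _, ?_, ?_, item_alive hv h0 h1 hx (Or.inl ⟨rfl, h4⟩)⟩
    · split_ifs with hc
      · rw [min_eq_right (by linarith)]; linarith [hu.1]
      · rw [min_eq_left (by linarith)]; linarith
    · split_ifs with hc
      · rw [max_eq_left (by linarith)]; linarith
      · rw [max_eq_right (by linarith)]; linarith [hu.1]
  · right
    refine ⟨hxy.symm, u, hgt, hi, lt_of_le_of_lt (Set.ncard_le_ncard ?_ (Set.toFinite _)) hobs⟩
    rintro l ⟨h2, h3, u', h4, h5, h6⟩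
    refine ⟨h2, h3, _, ?_, ?_, item_alive hv h0 h1 hx h6⟩
    · split_ifs with hc
      · rw [min_eq_left (by linarith)]; linarith
      · rw [min_eq_right (by linarith)]; linarith
    · split_ifs with hc
      · rw [max_eq_right (by linarith)]; linarith
      · rw [max_eq_left (by linarith)]; linarith

/-- The case in which the item of `x` at `p` is finite and ends first. -/
theorem in_list_of_finite (hv : Valid r α) {x y : Fin n} {τ p q : ℝ} {K : ℕ} (hxy : x ≠ y)
    (h0 : 0 < τ) (h1 : τ < Real.pi)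
    (hp : (p = r x ∧ ¬ Real.pi ≤ α x ∧ τ ≤ α x) ∨ (p = - r x ∧ τ + Real.pi ≤ α x))
    (hq : (q = r y ∧ (Real.pi ≤ α y ∨ Before α x y)) ∨
      (q = - r y ∧ Real.pi ≤ α y ∧ Before α x y))
    (hobs : (Obs r α x y τ p q).ncard < K) :
    CoutP r α K x y ∨ CinP r α K x y := by
  rcases hp with ⟨hp, hs, ht⟩ | ⟨hp, ht⟩
  · -- short `x`
    have hbx : τ ≤ bb α x := by rw [bb_short hs]; exact ht
    rcases hq with ⟨hq, ha⟩ | ⟨hq, hl, hb⟩
    · refine in_list (u := - r y) hv hxy h0 h1 hbx (Or.inl ⟨rfl, longer_of_before_short hs ha⟩) ?_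
      rw [if_neg hs, if_neg hs, neg_neg, ← hp, ← hq]
      exact hobs
    · refine in_list (u := r y) hv hxy h0 h1 hbx (Or.inr ⟨rfl, ?_⟩) ?_
      · simp only [Oth, if_neg hs]; exact ⟨hl, hb⟩
      · rw [if_neg hs, if_neg hs, ← hp, ← hq]
        exact hobs
  · have hlx : Real.pi ≤ α x := by linarith
    have hbx : τ ≤ bb α x := by rw [bb_long hlx]; linarith
    rcases hq with ⟨hq, ha⟩ | ⟨hq, hl, hb⟩
    · refine in_list (u := r y) hv hxy h0 h1 hbx (Or.inr ⟨rfl, ?_⟩) ?_
      · simp only [Oth, if_pos hlx]; exact ha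
      · rw [if_pos hlx, if_pos hlx, ← hp, ← hq]
        exact hobs
    · refine in_list (u := - r y) hv hxy h0 h1 hbx
        (Or.inl ⟨rfl, longer_of_before_long hlx hl hb⟩) ?_
      rw [if_pos hlx, if_pos hlx, ← hp, ← hq]
      exact hobs

/-- Two long arcs whose front items see each other. -/
theorem in_list_of_long (hv : Valid r α) {x y : Fin n} {τ : ℝ} {K : ℕ} (hxy : x ≠ y)
    (h0 : 0 < τ) (h1 : τ < Real.pi) (hx : Real.pi ≤ α x) (hy : Real.pi ≤ α y)
    (hb : Before α x y) (hobs : (Obs r α x y τ (r x) (r y)).ncard < K) :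
    CoutP r α K x y ∨ CinP r α K x y := by
  have hinj := radii_injective hv
  have hlong := longer_of_before_long hx hy hb
  have hfront : ∀ l : Fin n, Longer α x l → pt (r l) τ ∈ fam r α l := by
    intro l hl
    rw [mem_fam_iff hv l h0 h1]
    exact Or.inl ⟨rfl, by linarith [hl.le]⟩
  rcases lt_or_gt_of_ne (fun h => hxy (hinj h) : r x ≠ r y) with hlt | hgt
  · left
    refine ⟨hlt, hlong, lt_of_le_of_lt (Set.ncard_le_ncard ?_ (Set.toFinite _)) hobs⟩
    rintro l ⟨h2, h3, h4, h5, h6⟩
    refine ⟨h2, h3, r l, ?_, ?_, hfront l h4⟩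
    · rw [min_eq_left hlt.le]; exact h5.le
    · rw [max_eq_right hlt.le]; exact h6.le
  · right
    refine ⟨hxy.symm, - r y, by linarith, Or.inl ⟨rfl, hlong⟩,
      lt_of_le_of_lt (Set.ncard_le_ncard ?_ (Set.toFinite _)) hobs⟩
    rintro l ⟨h2, h3, u', h4, h5, h6⟩
    have hry := (hv.1 y).1
    have hrl := (hv.1 l).1
    rcases h6 with ⟨h6, h7⟩ | ⟨h6, -⟩
    · refine ⟨h2, h3, r l, ?_, ?_, hfront l h7⟩
      · rw [min_eq_right hgt.le]; linarith
      · rw [max_eq_left hgt.le]; linarith
    · linarith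

theorem sees_in_list (hv : Valid r α) {i j : Fin n} {k : ℕ} (hij : i ≠ j)
    (h : Sees k (fam r α) i j) :
    (CoutP r α (k + 1) i j ∨ CinP r α (k + 1) i j) ∨
      (CoutP r α (k + 1) j i ∨ CinP r α (k + 1) j i) := by
  obtain ⟨τ, p, q, h0, h1, hp, hq, hcard⟩ := h.line
  have hobs : (Obs r α i j τ p q).ncard < k + 1 := Nat.lt_succ_of_le hcard
  have hobs' : (Obs r α j i τ q p).ncard < k + 1 := by rw [← Obs_comm]; exact hobs
  rw [mem_fam_iff hv _ h0 h1] at hp hq
  -- a symmetric formulation of the last case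
  by_cases hfi : p = r i ∧ Real.pi ≤ α i
  · by_cases hfj : q = r j ∧ Real.pi ≤ α j
    · rcases before_total (α := α) hij with hb | hb
      · left
        apply in_list_of_long hv hij h0 h1 hfi.2 hfj.2 hb
        rw [← hfi.1, ← hfj.1]; exact hobs
      · right
        apply in_list_of_long hv hij.symm h0 h1 hfj.2 hfi.2 hb
        rw [← hfi.1, ← hfj.1]; exact hobs'
    · right
      apply in_list_of_finite hv hij.symm h0 h1 (p := q) (q := p) _ (Or.inl ⟨hfi.1, Or.inl hfi.2⟩)
        hobs'
      rcases hq with ⟨hq, ht⟩ | ⟨hq, ht⟩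
      · left
        exact ⟨hq, fun hc => hfj ⟨hq, hc⟩, ht⟩
      · right; exact ⟨hq, ht⟩
  · have hpi : (p = r i ∧ ¬ Real.pi ≤ α i ∧ τ ≤ α i) ∨ (p = - r i ∧ τ + Real.pi ≤ α i) := by
      rcases hp with ⟨hp, ht⟩ | ⟨hp, ht⟩
      · left
        exact ⟨hp, fun hc => hfi ⟨hp, hc⟩, ht⟩
      · right; exact ⟨hp, ht⟩
    by_cases hfj : q = r j ∧ Real.pi ≤ α j
    · left
      exact in_list_of_finite hv hij h0 h1 hpi (Or.inl ⟨hfj.1, Or.inl hfj.2⟩) hobs
    · have hqj : (q = r j ∧ ¬ Real.pi ≤ α j ∧ τ ≤ α j) ∨ (q = - r j ∧ τ + Real.pi ≤ α j) := by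
        rcases hq with ⟨hq, ht⟩ | ⟨hq, ht⟩
        · left
          exact ⟨hq, fun hc => hfj ⟨hq, hc⟩, ht⟩
        · right; exact ⟨hq, ht⟩
      rcases before_total (α := α) hij with hb | hb
      · left
        apply in_list_of_finite hv hij h0 h1 hpi _ hobs
        rcases hqj with ⟨hq, -, -⟩ | ⟨hq, ht⟩
        · exact Or.inl ⟨hq, Or.inr hb⟩
        · exact Or.inr ⟨hq, by linarith, hb⟩
      · right
        apply in_list_of_finite hv hij.symm h0 h1 hqj _ hobs'
        rcases hpi with ⟨hp, -, -⟩ | ⟨hp, ht⟩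
        · exact Or.inl ⟨hp, Or.inr hb⟩
        · exact Or.inr ⟨hp, by linarith, hb⟩

open Classical in
theorem edge_bound {k n : ℕ} {G : SimpleGraph (Fin n)} (hG : IsSemiArcGraph k n G) :
    G.edgeSet.ncard ≤ ∑ j ∈ Finset.range n, min (k + 1) j + (k + 1) * n := by
  obtain ⟨r, α, hv, hadj⟩ := hG
  have hr : ∀ i, 0 < r i := fun i => (hv.1 i).1
  have hinj := radii_injective hv
  let Out : Fin n → Finset (Fin n) := fun x => Finset.univ.filter (fun y => CoutP r α (k + 1) x y)
  let In : Fin n → Finset (Fin n) := fun x => Finset.univ.filter (fun y => CinP r α (k + 1) x y)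
  let F : (Σ _ : Fin n, Fin n) → Sym2 (Fin n) := fun a => s(a.1, a.2)
  have hsub : G.edgeSet ⊆ (((Finset.univ.sigma Out).image F ∪ (Finset.univ.sigma In).image F :
      Finset (Sym2 (Fin n))) : Set (Sym2 (Fin n))) := by
    intro e he
    induction e with
    | _ i j =>
      rw [SimpleGraph.mem_edgeSet] at he
      have hij : i ≠ j := he.ne
      have hs := (hadj i j hij).1 he
      rw [Finset.coe_union]
      rcases sees_in_list hv hij hs with (h | h) | (h | h)
      · left
        rw [Finset.mem_coe, Finset.mem_image]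
        exact ⟨⟨i, j⟩, by simp [Out, h], rfl⟩
      · right
        rw [Finset.mem_coe, Finset.mem_image]
        exact ⟨⟨i, j⟩, by simp [In, h], rfl⟩
      · left
        rw [Finset.mem_coe, Finset.mem_image]
        exact ⟨⟨j, i⟩, by simp [Out, h], Sym2.eq_swap⟩
      · right
        rw [Finset.mem_coe, Finset.mem_image]
        exact ⟨⟨j, i⟩, by simp [In, h], Sym2.eq_swap⟩
  have h1 := Set.ncard_le_ncard hsub (Set.toFinite _)
  rw [Set.ncard_coe_finset] at h1
  refine h1.trans ((Finset.card_union_le _ _).trans (Nat.add_le_add ?_ ?_))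
  · refine Finset.card_image_le.trans ?_
    rw [Finset.card_sigma, ← sum_nl (α := α)]
    exact Finset.sum_le_sum fun x _ => le_min (card_Cout_le hinj _ x) (card_Cout_le' _ x)
  · refine Finset.card_image_le.trans ?_
    rw [Finset.card_sigma]
    calc ∑ x : Fin n, (In x).card ≤ ∑ _x : Fin n, (k + 1) :=
          Finset.sum_le_sum fun x _ => card_Cin_le hr hinj _ x
      _ = (k + 1) * n := by simp [mul_comm]

end main

end Pool.Agent.SAV
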